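import Pool.Agent.NH86.HD.Fin
import Pool.Agent.NH86.HD.CG
import Pool.Agent.NH86.HD.CI

/-!
# Collapsing maps in small ordinal definable families and `ω`-strongly measurable cardinals (helper70)
-/

set_option autoImplicit false

open Ordinal Cardinal Set

universe u

namespace Pool.Agent.NH70.BSU

open Pool.Agent.NH86.HD

/-- some ordinal definable set of fewer than `|a|` sets has a member that maps the ordinals below `a` to the ordinals
below some `b < a`, such that the inverse images of the points are bounded in `a` (`f` may have several values) -/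
def Coll (a : Ordinal.{u}) : Prop := ∃ b < a, ∃ X : ZFSet.{u}, OD X ∧ X.card < a.card ∧ ∃ f ∈ X,
  (∀ i < a, ∃ j < b, ZFSet.pair i.toZFSet j.toZFSet ∈ f) ∧
  ∀ j < b, ∃ c < a, ∀ i < a, ZFSet.pair i.toZFSet j.toZFSet ∈ f → i < c

/-- `x` is the strict supremum of the elements of `A` with a value at most `y` -/
def Qs (D A x y : ZFSet.{u}) : Prop :=
  (∀ x', x' ∈ A → ∀ j', (j' ∈ y ∨ j' = y) → ZFSet.pair x' j' ∈ D → x' ∈ x) ∧
  ∀ c, c ∈ x → ∃ x', x' ∈ A ∧ ((c ∈ x' ∨ c = x') ∧ ∃ j', ((j' ∈ y ∨ j' = y) ∧ ZFSet.pair x' j' ∈ D))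

theorem df_Qs : Df.{u} fun s => Qs (s 0) (s 1) (s 2) (s 3) :=
  (Df.all (R := fun x' s => x' ∈ s 1 → ∀ j', (j' ∈ s 3 ∨ j' = s 3) → ZFSet.pair x' j' ∈ s 0 → x' ∈ s 2)
    ((Df.mem 0 2).imp (Df.all (R := fun j' s => (j' ∈ s 4 ∨ j' = s 4) → ZFSet.pair (s 0) j' ∈ s 1 → s 0 ∈ s 3)
      (((Df.mem 0 5).or (Df.eq 0 5)).imp ((Df.pairMem 1 0 2).imp (Df.mem 1 4)))))).and
  (Df.all (R := fun c s => c ∈ s 2 → ∃ x', x' ∈ s 1 ∧ ((c ∈ x' ∨ c = x') ∧
      ∃ j', ((j' ∈ s 3 ∨ j' = s 3) ∧ ZFSet.pair x' j' ∈ s 0)))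
    ((Df.mem 0 3).imp (Df.ex (R := fun x' s => x' ∈ s 2 ∧ ((s 0 ∈ x' ∨ s 0 = x') ∧
      ∃ j', ((j' ∈ s 4 ∨ j' = s 4) ∧ ZFSet.pair x' j' ∈ s 1)))
      ((Df.mem 0 3).and (((Df.mem 1 0).or (Df.eq 1 0)).and (Df.ex (R := fun j' s =>
        ((j' ∈ s 5 ∨ j' = s 5) ∧ ZFSet.pair (s 0) j' ∈ s 2))
        (((Df.mem 0 6).or (Df.eq 0 6)).and (Df.pairMem 1 0 3))))))))

/-- `z` is the set of these suprema that belong to `A`, for all `y ∈ B` -/
def Rc (D z A B : ZFSet.{u}) : Prop := ∀ x, x ∈ z ↔ (x ∈ A ∧ ∃ y, y ∈ B ∧ Qs D A x y)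

theorem df_Rc : Df.{u} fun s => Rc (s 0) (s 1) (s 2) (s 3) :=
  Df.all (R := fun x s => x ∈ s 1 ↔ (x ∈ s 2 ∧ ∃ y, y ∈ s 3 ∧ Qs (s 0) (s 2) x y))
  ((Df.mem 0 2).iff ((Df.mem 0 3).and (Df.ex (R := fun y s => y ∈ s 4 ∧ Qs (s 1) (s 3) (s 0) y)
  ((Df.mem 0 5).and (Df.sub4 df_Qs 2 4 1 0)))))

theorem df_fam (φ : Fm) : Df.{u} fun s => ∃ W, Sat φ (cns W fun n => s (n + 3)) ∧
    ∀ z, z ∈ s 0 ↔ ∃ D, D ∈ W ∧ Rc D z (s 1) (s 2) := by
  refine Df.ex (R := fun W s => Sat φ (cns W fun n => s (n + 3)) ∧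
    ∀ z, z ∈ s 0 ↔ ∃ D, D ∈ W ∧ Rc D z (s 1) (s 2)) (Df.and ?_ ?_)
  · have h : Df.{u} fun s => Sat φ fun n => s (if n = 0 then 0 else n + 3) :=
      Df.ren (P := Sat φ) ⟨φ, fun _ => Iff.rfl⟩ fun n => if n = 0 then 0 else n + 3
    refine h.congr fun s => ?_
    have : (fun n => s (if n = 0 then 0 else n + 3)) = cns (s 0) fun n => s (n + 3 + 1) := by
      funext n
      cases n <;> rfl
    rw [this]
  · exact Df.all (R := fun z s => z ∈ s 1 ↔ ∃ D, D ∈ s 0 ∧ Rc D z (s 2) (s 3))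
      ((Df.mem 0 2).iff (Df.ex (R := fun D s => D ∈ s 1 ∧ Rc D (s 0) (s 3) (s 4))
        ((Df.mem 0 2).and (Df.sub4 df_Rc 0 1 4 5))))

/-- the set of the suprema -/
noncomputable def rc (A B D : ZFSet.{u}) : ZFSet.{u} := ZFSet.sep (fun x => ∃ y, y ∈ B ∧ Qs D A x y) A

theorem rc_iff {A B D z : ZFSet.{u}} : Rc D z A B ↔ rc A B D = z := by
  unfold Rc
  rw [ZFSet.ext_iff]
  refine forall_congr' fun x => ?_
  rw [rc, ZFSet.mem_sep]
  exact Iff.comm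

theorem od_fam {X : ZFSet.{u}} (hX : OD X) (a b : Ordinal.{u}) :
    ∃ X' : ZFSet.{u}, OD X' ∧ X'.card ≤ X.card ∧ ∀ D ∈ X, rc a.toZFSet b.toZFSet D ∈ X' := by
  obtain ⟨φ, p, hφ⟩ := hX
  have : ZFSet.Definable₁ (fun D : ZFSet.{u} => rc a.toZFSet b.toZFSet D) := Classical.allZFSetDefinable _
  refine ⟨ZFSet.image (fun D => rc a.toZFSet b.toZFSet D) X, ?_, ZFSet.card_image_le,
    fun D hD => ZFSet.mem_image.2 ⟨D, hD, rfl⟩⟩
  refine OD.of_df (df_fam φ) (cns a (cns b p)) fun y => ?_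
  have hs : (fun n => cns y (oz (cns a (cns b p))) (n + 3)) = oz p := by
    funext n
    rfl
  have h1 : cns y (oz (cns a (cns b p))) 1 = a.toZFSet := rfl
  have h2 : cns y (oz (cns a (cns b p))) 2 = b.toZFSet := rfl
  simp only [hs, h1, h2, cns_zero, rc_iff]
  constructor
  · rintro ⟨W, hW, h⟩
    rw [(hφ W).1 hW] at h
    ext z
    rw [h, ZFSet.mem_image]
  · rintro rfl
    refine ⟨X, (hφ X).2 rfl, fun z => ?_⟩
    rw [ZFSet.mem_image]

/-- bounded sets of ordinals have an order type -/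
theorem exists_OT {E : Set Ordinal.{u}} {a : Ordinal.{u}} (h : ∀ x ∈ E, x < a) : ∃ v, OT E v := by
  have hS : ¬ BddAbove (E ∪ Set.Ici a) := by
    rintro ⟨c, hc⟩
    have h1 : Order.succ (max a c) ≤ c := hc (Or.inr ((le_max_left a c).trans (Order.le_succ _)))
    exact absurd (lt_of_lt_of_le (Order.lt_succ (max a c)) h1) (not_lt.2 (le_max_right a c))
  have hf := Ordinal.enumOrd_strictMono hS
  have hr := Ordinal.range_enumOrd hS
  obtain ⟨v, hv⟩ : a ∈ Set.range (Ordinal.enumOrd (E ∪ Set.Ici a)) := by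
    rw [hr]
    exact Or.inr (Set.mem_Ici.2 le_rfl)
  refine ⟨v, Ordinal.enumOrd (E ∪ Set.Ici a), hf.strictMonoOn _, ?_⟩
  ext x
  constructor
  · intro hx
    obtain ⟨i, hi⟩ : x ∈ Set.range (Ordinal.enumOrd (E ∪ Set.Ici a)) := by
      rw [hr]
      exact Or.inl hx
    refine ⟨i, ?_, hi⟩
    have h1 : Ordinal.enumOrd (E ∪ Set.Ici a) i < Ordinal.enumOrd (E ∪ Set.Ici a) v := by
      rw [hi, hv]
      exact h x hx
    exact hf.lt_iff_lt.1 h1
  · rintro ⟨i, hi, rfl⟩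
    have h1 : Ordinal.enumOrd (E ∪ Set.Ici a) i < a := (hf hi).trans_eq hv
    have h2 : Ordinal.enumOrd (E ∪ Set.Ici a) i ∈ E ∪ Set.Ici a :=
      hr.subset (Set.mem_range_self i)
    rcases h2 with h2 | h2
    · exact h2
    · exact absurd h1 (not_lt.2 h2)

/-- a limit ordinal that is collapsed by a small ordinal definable family is not regular for small ordinal
definable families -/
theorem not_blReg_of_coll {a : Ordinal.{u}} (ha : ∀ c < a, Order.succ c < a) (h : Coll a) : ¬ BlReg a := by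
  obtain ⟨b, hb, X, hX, hc, f, hf, h1, h2⟩ := h
  obtain ⟨X', hX', hc', hm⟩ := od_fam hX a b
  set D := rc a.toZFSet b.toZFSet f with hD
  set P : Ordinal.{u} → Ordinal.{u} → Prop := fun x j => ZFSet.pair x.toZFSet j.toZFSet ∈ f with hP
  set S : Ordinal.{u} → Ordinal.{u} → Prop := fun j x => (∀ x' < a, ∀ j' ≤ j, P x' j' → x' < x) ∧
    ∀ c < x, ∃ x' < a, c ≤ x' ∧ ∃ j' ≤ j, P x' j' with hS
  have le_iff : ∀ i j : Ordinal.{u}, (i.toZFSet ∈ j.toZFSet ∨ i.toZFSet = j.toZFSet) ↔ i ≤ j := by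
    intro i j
    rw [toZFSet_mem_toZFSet_iff, toZFSet_injective.eq_iff, le_iff_lt_or_eq]
  have hQ : ∀ x < a, ∀ j : Ordinal.{u}, Qs f a.toZFSet x.toZFSet j.toZFSet ↔ S j x := by
    intro x hx j
    have mem_le : ∀ j' : ZFSet.{u}, (j' ∈ j.toZFSet ∨ j' = j.toZFSet) → ∃ i ≤ j, i.toZFSet = j' := by
      rintro j' (h3 | h3)
      · obtain ⟨i, hi, rfl⟩ := mem_toZFSet_iff.1 h3
        exact ⟨i, hi.le, rfl⟩
      · exact ⟨j, le_rfl, h3.symm⟩
    constructor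
    · rintro ⟨h3, h4⟩
      refine ⟨fun x' hx' j' hj' h5 => toZFSet_mem_toZFSet_iff.1 (h3 _ (toZFSet_mem_toZFSet_iff.2 hx') _
        ((le_iff _ _).2 hj') h5), fun c hc => ?_⟩
      obtain ⟨x', hx', h5, j', h6, h7⟩ := h4 _ (toZFSet_mem_toZFSet_iff.2 hc)
      obtain ⟨x'', hx'', rfl⟩ := mem_toZFSet_iff.1 hx'
      obtain ⟨i, hi, rfl⟩ := mem_le j' h6
      exact ⟨x'', hx'', (le_iff _ _).1 h5, i, hi, h7⟩
    · rintro ⟨h3, h4⟩
      refine ⟨fun x' hx' j' hj' h5 => ?_, fun c hc => ?_⟩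
      · obtain ⟨x'', hx'', rfl⟩ := mem_toZFSet_iff.1 hx'
        obtain ⟨i, hi, rfl⟩ := mem_le j' hj'
        exact toZFSet_mem_toZFSet_iff.2 (h3 _ hx'' _ hi h5)
      · obtain ⟨c', hc', rfl⟩ := mem_toZFSet_iff.1 hc
        obtain ⟨x', hx', h5, i, hi, h6⟩ := h4 c' hc'
        exact ⟨_, toZFSet_mem_toZFSet_iff.2 hx', (le_iff _ _).2 h5, _, (le_iff _ _).2 hi, h6⟩
  have hmem : ∀ x : Ordinal.{u}, x ∈ ords D ↔ (x < a ∧ ∃ j < b, S j x) := by
    intro x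
    rw [mem_ords, hD, rc, ZFSet.mem_sep, toZFSet_mem_toZFSet_iff]
    refine and_congr_right fun hx => ?_
    constructor
    · rintro ⟨y, hy, h3⟩
      obtain ⟨j, hj, rfl⟩ := mem_toZFSet_iff.1 hy
      exact ⟨j, hj, (hQ x hx j).1 h3⟩
    · rintro ⟨j, hj, h3⟩
      exact ⟨j.toZFSet, toZFSet_mem_toZFSet_iff.2 hj, (hQ x hx j).2 h3⟩
  have hsub : D ⊆ a.toZFSet := fun x hx => (ZFSet.mem_sep.1 hx).1
  have huni : ∀ j x j' x', S j x → S j' x' → j ≤ j' → x ≤ x' := by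
    intro j x j' x' h3 h4 hj
    by_contra hcon
    obtain ⟨x'', hx'', h5, j'', hj'', h6⟩ := h3.2 x' (not_le.1 hcon)
    exact absurd (h4.1 x'' hx'' j'' (hj''.trans hj) h6) (not_lt.2 h5)
  -- cofinal
  have hcf : Cf a (ords D) := by
    have hne : {γ : Ordinal.{u} | γ ≤ b ∧ ∀ β < a, ∃ x, β < x ∧ x < a ∧ ∃ j < γ, P x j}.Nonempty := by
      refine ⟨b, le_rfl, fun β hβ => ?_⟩
      obtain ⟨j, hj, hj'⟩ := h1 _ (ha β hβ)
      exact ⟨_, Order.lt_succ β, ha β hβ, j, hj, hj'⟩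
    obtain ⟨γ, ⟨hγb, hγ⟩, hmin⟩ := WellFounded.has_min (wellFounded_lt) _ hne
    intro β hβ
    obtain ⟨x, hx1, hx2, j, hj, hj'⟩ := hγ β hβ
    -- the elements with values at most `j` are bounded
    have hbd : ∃ c < a, ∀ x' < a, ∀ j' ≤ j, P x' j' → x' < c := by
      have h3 : ¬ (∀ β < a, ∃ x, β < x ∧ x < a ∧ ∃ j' < j, P x j') := fun h3 =>
        hmin j ⟨hj.le.trans hγb, h3⟩ hj
      push Not at h3
      obtain ⟨c1, hc1, h4⟩ := h3
      obtain ⟨c2, hc2, h5⟩ := h2 j (hj.trans_le hγb)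
      refine ⟨max (Order.succ c1) c2, max_lt (ha _ hc1) hc2, fun x' hx' j' hj'' h6 => ?_⟩
      rcases hj''.lt_or_eq with h7 | h7
      · refine lt_max_of_lt_left (Order.lt_succ_iff.2 ?_)
        by_contra hcon
        exact h4 x' (not_le.1 hcon) hx' j' h7 h6
      · subst h7
        exact lt_max_of_lt_right (h5 x' hx' h6)
    obtain ⟨c, hc, hc2⟩ := hbd
    obtain ⟨t, ht, htmin⟩ := WellFounded.has_min (wellFounded_lt)
      {t : Ordinal.{u} | ∀ x' < a, ∀ j' ≤ j, P x' j' → x' < t} ⟨c, hc2⟩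
    have hta : t < a := lt_of_le_of_lt (not_lt.1 fun hcon => htmin c hc2 hcon) hc
    refine ⟨t, (hmem t).2 ⟨hta, j, hj.trans_le hγb, ht, fun d hd => ?_⟩, ?_, hta⟩
    · have h3 : ¬ ∀ x' < a, ∀ j' ≤ j, P x' j' → x' < d := fun h3 => htmin d h3 hd
      push Not at h3
      obtain ⟨x', hx', j', hj'', h4, h5⟩ := h3
      exact ⟨x', hx', h5, j', hj'', h4⟩
    · exact hx1.trans (ht x hx2 j le_rfl hj')
  -- the order type
  obtain ⟨v, hv⟩ := exists_OT (E := ords D) (a := a) fun x hx => ((hmem x).1 hx).1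
  have hvb : v ≤ b := by
    obtain ⟨n, hn, hE⟩ := hv
    have hex : ∀ i, ∃ j, i < v → (j < b ∧ S j (n i)) := by
      intro i
      by_cases hi : i < v
      · have h3 : n i ∈ ords D := by
          rw [hE]
          exact ⟨i, hi, rfl⟩
        obtain ⟨_, j, hj⟩ := (hmem _).1 h3
        exact ⟨j, fun _ => hj⟩
      · exact ⟨0, fun h => absurd h hi⟩
    choose J hJ using hex
    refine le_of_strictMonoOn (n := J) ?_ fun i hi => (hJ i hi).1
    intro i hi i' hi' hii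
    have h3 : n i < n i' := hn hi hi' hii
    by_contra hcon
    exact absurd h3 (not_lt.2 (huni _ _ _ _ (hJ i' hi').2 (hJ i hi).2 (not_lt.1 hcon)))
  intro hreg
  have h3 := hreg X' hX' (hc'.trans_lt hc) D (hm f hf) hsub hcf v hv
  exact absurd (h3.trans hvb) (not_le.2 hb)

/-- closed unbounded sets contain limit ordinals above a given bound -/
theorem club_limit {l : Cardinal.{u}} (hl : l.IsRegular) (h0 : ℵ₀ < l) {c : Ordinal.{u}} (hc : c < l.ord)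
    {C : Set Ordinal.{u}} (hC : Club l.ord C) :
    Club l.ord {a | a ∈ C ∧ c < a ∧ ∀ b < a, Order.succ b < a} := by
  have hlim : Order.IsSuccLimit l.ord := isSuccLimit_ord hl.aleph0_le
  have h1 := t_CG l hl h0 (fun b => Order.succ (max b c)) fun b hb => hlim.succ_lt (max_lt hb hc)
  have h2 := t_CI l hl h0 (ULift Bool) (fun j => if j.down then C else
    {a | a < l.ord ∧ a ≠ 0 ∧ ∀ b < a, Order.succ (max b c) < a}) (by
      rw [mk_uLift, mk_bool, Cardinal.lift_ofNat]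
      exact (natCast_lt_aleph0 (n := 2)).trans h0) (by
      rintro ⟨j⟩
      cases j
      · exact h1
      · exact hC)
  have e : {a | a < l.ord ∧ ∀ j : ULift Bool, a ∈ (if j.down then C else
      {a | a < l.ord ∧ a ≠ 0 ∧ ∀ b < a, Order.succ (max b c) < a})} =
      {a | a ∈ C ∧ c < a ∧ ∀ b < a, Order.succ b < a} := by
    ext a
    constructor
    · rintro ⟨ha, h⟩
      have h3 : a ∈ C := by simpa using h ⟨true⟩
      have h4 : a < l.ord ∧ a ≠ 0 ∧ ∀ b < a, Order.succ (max b c) < a := by simpa using h ⟨false⟩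
      refine ⟨h3, ?_, fun b hb => lt_of_le_of_lt (Order.succ_le_succ (le_max_left b c)) (h4.2.2 b hb)⟩
      have h5 := h4.2.2 0 (pos_iff_ne_zero.2 h4.2.1)
      exact lt_trans (lt_of_le_of_lt (le_max_right 0 c) (Order.lt_succ _)) h5
    · rintro ⟨h3, h4, h5⟩
      have ha : a < l.ord := hC.1 a h3
      refine ⟨ha, ?_⟩
      rintro ⟨j⟩
      cases j
      · show a ∈ {a | a < l.ord ∧ a ≠ 0 ∧ ∀ b < a, Order.succ (max b c) < a}
        refine ⟨ha, ?_, fun b hb => h5 _ (max_lt hb h4)⟩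
        rintro rfl
        exact not_lt_zero h4
      · exact h3
  rwa [e] at h2

end Pool.Agent.NH70.BSU
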